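import Pool.Agent.helper74.NL.Spec

/-!
# MP_70a088_an, modules INEQ and NOP
-/

set_option autoImplicit false

open Complex Metric Set Filter Topology MeasureTheory MPS Pool.Agent.helper98.ILF

noncomputable section

namespace NLF

/-- INEQ. -/
theorem INEQ (hRAD : RAD_stmt) (hSD1 : SD1_stmt) (hSD2 : SD2_stmt) (hPAIR : PAIR_stmt)
    (hLIMK : LIMK_stmt) : INEQ_stmt := by
  intro n k _ c b g μ hn hb hμ hρ hg
  obtain ⟨r, hr, hr1, hr2⟩ := hRAD n k c b hn hb hρ
  set Λ : ℝ := Real.log ‖rho n b‖ with hΛ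
  have hΛ0 : 0 ≤ Λ := Real.log_nonneg hρ
  rw [← norm_mul]
  refine le_of_forall_pos_le_add fun ε hε => ?_
  have hδ : 0 < ε / 2 := half_pos hε
  have h1 := hSD1 n k c b g r hn hb hr hr1 (ε / 2) hδ
  have h2 := hSD2 n k c b g r hn hb hr hr1 (ε / 2) hδ
  have h3 := (hLIMK n k c b g μ r hn hb hμ hr hg).norm
  refine le_of_tendsto h3 ?_
  filter_upwards [h1, h2, self_mem_nhdsWithin] with s hs1 hs2 hs
  have hs0 : (0 : ℝ) < s := hs
  have h4 := hPAIR n k c b g μ (fun i => s * r i) hn hb hμ (fun i => mul_pos hs0 (hr i))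
  have h5 := h4.trans (add_le_add hs1 hs2)
  rw [hr2, ← ENNReal.ofReal_add (by positivity) hδ.le] at h5
  have h6 := (ENNReal.ofReal_le_ofReal_iff (by positivity)).1 h5
  linarith

/-! ## NOP -/

theorem NOP_lim {k : ℕ} [NeZero k] (b g : ZMod k → ℂ) (hb : Function.Injective b) (i : ZMod k) :
    Tendsto (fun z => (z - b i) ^ 2 * BB b g z) (𝓝[≠] (b i)) (𝓝 1) := by
  set F : ℂ → ℂ := fun z => 1 + g i * (z - b i) +
    ∑ j ∈ Finset.univ.erase i, (z - b i) ^ 2 * (1 / (z - b j) ^ 2 + g j / (z - b j)) with hF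
  have h1 : ContinuousAt F (b i) := by
    have h2 : ContinuousAt (fun z : ℂ => 1 + g i * (z - b i)) (b i) := by fun_prop
    refine h2.add ?_
    refine tendsto_finsetSum _ fun j hj => ?_
    have h3 : b i - b j ≠ 0 := sub_ne_zero.2 fun h => (Finset.ne_of_mem_erase hj) (hb h).symm
    have h4 : ContinuousAt (fun z : ℂ => (z - b i) ^ 2 * (1 / (z - b j) ^ 2 + g j / (z - b j)))
        (b i) := by
      have h5 : ContinuousAt (fun z : ℂ => z - b j) (b i) := by fun_prop
      have h6 : ContinuousAt (fun z : ℂ => (z - b i) ^ 2) (b i) := by fun_prop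
      exact h6.mul ((continuousAt_const.div (h5.pow 2) (pow_ne_zero 2 h3)).add
        (continuousAt_const.div h5 h3))
    exact h4
  have h2 : F (b i) = 1 := by
    simp only [hF, sub_self, mul_zero, add_zero]
    rw [Finset.sum_eq_zero]
    · rw [add_zero]
    · intro j _
      ring
  have h3 : Tendsto F (𝓝[≠] (b i)) (𝓝 1) := by
    have h4 := h1.tendsto
    rw [h2] at h4
    exact h4.mono_left nhdsWithin_le_nhds
  refine h3.congr' ?_
  filter_upwards [self_mem_nhdsWithin] with z hz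
  have hz' : z - b i ≠ 0 := sub_ne_zero.2 hz
  simp only [hF, BB]
  rw [Finset.mul_sum, ← Finset.add_sum_erase Finset.univ _ (Finset.mem_univ i)]
  congr 1
  field_simp

theorem NOP_om {n : ℕ} (hn : 2 ≤ n) : om n ≠ 1 ∧ om n ≠ 0 ∧ om n ^ n = 1 := by
  have h1 : IsPrimitiveRoot (om n) n := Complex.isPrimitiveRoot_exp n (by omega)
  exact ⟨h1.ne_one (by omega), h1.ne_zero (by omega), h1.pow_eq_one⟩

/-- NOP. -/
theorem NOP : NOP_stmt := by
  intro n k _ c b g κ hn hb hH
  obtain ⟨ho1, ho0, hon⟩ := NOP_om hn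
  set y₁ : ℂ := b 0 / om n with hy₁
  have hy : om n * y₁ = b 0 := by
    rw [hy₁, mul_div_cancel₀]
    exact ho0
  have hne : ∀ i, y₁ ≠ b i := by
    intro i h
    rw [h] at hy
    have h1 : b (i + 1) = b (0 + 1) := by
      rw [← hb.step i, ← hb.step 0, ← hy, mul_pow, hon, one_mul]
    have h2 : i = 0 := by
      have h3 := hb.inj h1
      exact add_right_cancel h3
    rw [h2] at hy
    have h3 : om n = 1 := by
      have h4 := hb.ne0 0
      exact mul_right_cancel₀ h4 (by rw [hy, one_mul])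
    exact ho1 h3
  have hlim1 : Tendsto (fun y : ℂ => om n * y) (𝓝[≠] y₁) (𝓝[≠] (b 0)) := by
    refine tendsto_nhdsWithin_iff.2 ⟨?_, ?_⟩
    · have h1 : ContinuousAt (fun y : ℂ => om n * y) y₁ := by fun_prop
      have h2 := h1.tendsto
      rw [hy] at h2
      exact h2.mono_left nhdsWithin_le_nhds
    · filter_upwards [self_mem_nhdsWithin] with y hy2
      intro h
      rw [mem_singleton_iff, ← hy] at h
      exact hy2 (mul_left_cancel₀ ho0 h)
  have hA : Tendsto (fun y : ℂ => (om n * y - b 0) ^ 2 * (om n ^ 2 * BB b g (om n * y)))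
      (𝓝[≠] y₁) (𝓝 (om n ^ 2)) := by
    have h1 := ((NOP_lim b g hb.inj 0).comp hlim1).const_mul (om n ^ 2)
    rw [mul_one] at h1
    refine h1.congr fun y => ?_
    simp only [Function.comp_apply]
    ring
  have hBBc : ContinuousAt (BB b g) y₁ := by
    unfold BB
    refine tendsto_finsetSum _ fun j _ => ?_
    have h3 : y₁ - b j ≠ 0 := sub_ne_zero.2 (hne j)
    have h5 : ContinuousAt (fun z : ℂ => z - b j) y₁ := by fun_prop
    exact (continuousAt_const.div (h5.pow 2) (pow_ne_zero 2 h3)).add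
      (continuousAt_const.div h5 h3)
  have hB : Tendsto (fun y : ℂ => (om n * y - b 0) ^ 2 * (κ * BB b g y)) (𝓝[≠] y₁) (𝓝 0) := by
    have h1 : ContinuousAt (fun y : ℂ => (om n * y - b 0) ^ 2 * (κ * BB b g y)) y₁ := by
      have h2 : ContinuousAt (fun y : ℂ => (om n * y - b 0) ^ 2) y₁ := by fun_prop
      exact h2.mul (continuousAt_const.mul hBBc)
    have h2 := h1.tendsto
    have h3 : (om n * y₁ - b 0) ^ 2 * (κ * BB b g y₁) = 0 := by
      rw [hy]
      ring
    rw [h3] at h2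
    exact h2.mono_left nhdsWithin_le_nhds
  have hev : ∀ᶠ y in 𝓝[≠] y₁, (∀ i, y ≠ b i) ∧ ∀ i, om n * y ≠ b i := by
    have h1 : ∀ᶠ y in 𝓝[≠] y₁, ∀ i, y ≠ b i := by
      refine Filter.eventually_all.2 fun i => ?_
      exact nhdsWithin_le_nhds (isOpen_ne.mem_nhds (hne i))
    have h2 : ∀ᶠ y in 𝓝[≠] y₁, ∀ i, om n * y ≠ b i := by
      refine Filter.eventually_all.2 fun i => ?_
      rcases eq_or_ne i 0 with hi | hi
      · subst hi
        exact hlim1.eventually self_mem_nhdsWithin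
      · have h3 : ∀ᶠ z in 𝓝[≠] (b 0), z ≠ b i := by
          refine nhdsWithin_le_nhds (isOpen_ne.mem_nhds ?_)
          intro h
          exact hi (hb.inj h).symm
        exact hlim1.eventually h3
    exact h1.and h2
  have hAB : (fun y : ℂ => (om n * y - b 0) ^ 2 * (om n ^ 2 * BB b g (om n * y))) =ᶠ[𝓝[≠] y₁]
      fun y : ℂ => (om n * y - b 0) ^ 2 * (κ * BB b g y) := by
    filter_upwards [hev] with y hyy
    rw [hH y hyy.1 hyy.2]
  have h1 := tendsto_nhds_unique (hA.congr' hAB) hB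
  exact (pow_ne_zero 2 ho0) h1

end NLF
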